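import Pool.Agent.helper14.Tower.Main

/-!
# The triangle-free forcing game: `rho k` is finite and grows like a tower
-/

set_option autoImplicit false

namespace Pool.Agent.Results.MP_f79b02_co.TowerGrowth

open Pool.Agent.helper14.Tower

/-- `rho k` is finite for every `k ≥ 3`, and it grows like a tower of twos of height `k - O(1)`:
`lower k ≤ rho k ≤ upper k`, where `2 ↑↑ (k - 4) < lower k` and `upper k < 2 ↑↑ (k - 2)`. -/
theorem result :
    (∀ k : ℕ, 3 ≤ k → (lower k : ℕ∞) ≤ rho k ∧ rho k ≤ (upper k : ℕ∞)) ∧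
    (∀ k : ℕ, 4 ≤ k → (tower (k - 4) : ℕ∞) < rho k ∧ rho k < (tower (k - 2) : ℕ∞)) := by
  have main : ∀ k : ℕ, 3 ≤ k → (lower k : ℕ∞) ≤ rho k ∧ rho k ≤ (upper k : ℕ∞) := by
    intro k hk
    obtain ⟨m, rfl⟩ := Nat.exists_eq_add_of_le' hk
    refine ⟨?_, rho_le_upper m⟩
    refine le_iInf fun V => le_iInf fun _ => le_iInf fun G => le_iInf fun hG =>
      le_iInf fun t => le_iInf fun ht => ?_
    have := lower_le m t V G hG ht
    exact_mod_cast this
  refine ⟨main, fun k hk => ?_⟩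
  obtain ⟨h1, h2⟩ := main k (by omega)
  refine ⟨lt_of_lt_of_le ?_ h1, lt_of_le_of_lt h2 ?_⟩
  · exact_mod_cast tower_lt_lower k hk
  · have := upper_lt_tower (k - 2)
    have e : k - 2 + 2 = k := by omega
    rw [e] at this
    exact_mod_cast this

end Pool.Agent.Results.MP_f79b02_co.TowerGrowth
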